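import Pool.Agent.W680.WH.Stm

/-!
# Project WHH (MP_af71ff_an): the operator is not similar to a homogeneous operator
-/

set_option autoImplicit false

open scoped ComplexConjugate InnerProductSpace
open ContinuousLinearMap Filter Pool.Agent.W680.WH

namespace Pool.Agent.W348.WH

/-! ### algebra -/

theorem alg1 {M : Type*} [Monoid M] (S : Mˣ) (U Us T pT : M) (h2 : U * Us = 1)
    (h : (S : M) * pT * ((S⁻¹ : Mˣ) : M) = Us * ((S : M) * T * ((S⁻¹ : Mˣ) : M)) * U) :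
    (((S⁻¹ : Mˣ) : M) * U * S) * pT = T * (((S⁻¹ : Mˣ) : M) * U * S) := by
  have e : pT = ((S⁻¹ : Mˣ) : M) * (Us * ((S : M) * T * ((S⁻¹ : Mˣ) : M)) * U) * S := by
    rw [← h]
    simp [mul_assoc]
  rw [e]
  simp only [mul_assoc, Units.mul_inv_cancel_left]
  rw [← mul_assoc U Us, h2, one_mul]
  simp

theorem alg2 {A : Type*} [Ring A] [Algebra ℂ A] (r : ℂ) (Z B X G0 : A)
    (h1 : (1 - r • Z) * G0 = 1) (h2 : G0 * (1 - r • Z) = 1) (h3 : G0 * Z = Z * G0) :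
    (1 - r * r) • (G0 * X * G0) + ((Z - r • (1 : A)) * G0) * B - B * ((Z - r • (1 : A)) * G0) =
      (1 - r * r) • (G0 * (X + Z * B - B * Z) * G0) := by
  have e1 : (Z - r • (1 : A)) * G0 = G0 * (Z - r • (1 : A)) := by
    rw [sub_mul, mul_sub, h3]
    simp
  have e2 : ((Z - r • (1 : A)) * G0) * B = G0 * ((Z - r • (1 : A)) * B * (1 - r • Z)) * G0 := by
    rw [e1]
    simp only [mul_assoc, h1, mul_one]
  have e3 : B * ((Z - r • (1 : A)) * G0) = G0 * ((1 - r • Z) * B * (Z - r • (1 : A))) * G0 := by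
    simp only [← mul_assoc]
    rw [h2, one_mul]
  have e4 : (Z - r • (1 : A)) * B * (1 - r • Z) - (1 - r • Z) * B * (Z - r • (1 : A)) =
      (1 - r * r) • (Z * B - B * Z) := by
    simp only [sub_mul, mul_sub, smul_mul_assoc, mul_smul_comm, one_mul, mul_one, smul_sub,
      mul_assoc]
    module
  have e5 : X + Z * B - B * Z = X + (Z * B - B * Z) := by abel
  rw [e2, e3, e5, add_sub_assoc, ← sub_mul, ← mul_sub, e4, mul_add, add_mul, smul_add]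
  simp only [mul_smul_comm, smul_mul_assoc]

theorem alg3 {A : Type*} [Ring A] [Algebra ℂ A] (F W1 : Aˣ) (Z Y G0 : A) (r s : ℂ)
    (hFZ : (F : A) * Z = Z * F) (hFG : (F : A) * G0 = G0 * F)
    (h1 : (W1 : A) * ((Z - r • (1 : A)) * G0) = Z * W1)
    (h2 : (W1 : A) * (s • (G0 * Y * G0)) = Y * W1) :
    ((F⁻¹ * W1 * F : Aˣ) : A) * ((Z - r • (1 : A)) * G0) = Z * ((F⁻¹ * W1 * F : Aˣ) : A) ∧
    ((F⁻¹ * W1 * F : Aˣ) : A) * (s • (G0 * (((F⁻¹ : Aˣ) : A) * Y * F) * G0)) =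
      (((F⁻¹ : Aˣ) : A) * Y * F) * ((F⁻¹ * W1 * F : Aˣ) : A) := by
  have hFi : ((F⁻¹ : Aˣ) : A) * Z = Z * ((F⁻¹ : Aˣ) : A) := by
    have : Z = (F : A) * Z * ((F⁻¹ : Aˣ) : A) := by rw [hFZ]; simp [mul_assoc]
    calc ((F⁻¹ : Aˣ) : A) * Z = ((F⁻¹ : Aˣ) : A) * ((F : A) * Z * ((F⁻¹ : Aˣ) : A)) := by rw [← this]
      _ = Z * ((F⁻¹ : Aˣ) : A) := by simp [mul_assoc]
  constructor
  · have e0 : (F : A) * (Z - r • (1 : A)) = (Z - r • (1 : A)) * F := by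
      rw [mul_sub, sub_mul, hFZ]
      simp
    have e1 : (F : A) * ((Z - r • (1 : A)) * G0) = ((Z - r • (1 : A)) * G0) * F := by
      rw [← mul_assoc, e0, mul_assoc, hFG, ← mul_assoc]
    push_cast
    rw [mul_assoc, e1, ← mul_assoc, mul_assoc _ (W1 : A), h1, ← mul_assoc, hFi]
    simp [mul_assoc]
  · push_cast
    have e2 : (F : A) * (s • (G0 * (((F⁻¹ : Aˣ) : A) * Y * F) * G0)) = (s • (G0 * Y * G0)) * F := by
      rw [mul_smul_comm, smul_mul_assoc]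
      congr 1
      rw [← mul_assoc, ← mul_assoc, hFG]
      simp only [mul_assoc, Units.mul_inv_cancel_left]
      rw [hFG]
    rw [mul_assoc, e2, ← mul_assoc, mul_assoc _ (W1 : A), h2]
    simp [mul_assoc]

theorem alg4 {M : Type*} [Monoid M] (F Fi Fa Fia W Wa P : M) (h1 : Fia * Fa = 1)
    (h2 : F * Fi = 1) (h3 : Wa * P * W = P) :
    Fa * (Wa * Fia) * (Fa * P * F) * (Fi * W * F) = Fa * P * F := by
  calc Fa * (Wa * Fia) * (Fa * P * F) * (Fi * W * F) =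
      Fa * (Wa * ((Fia * Fa) * P * (F * Fi)) * W) * F := by simp only [mul_assoc]
    _ = Fa * P * F := by rw [h1, h2, one_mul, mul_one, h3]

theorem adj_mul (A B : E →L[ℂ] E) : adjoint (A * B) = adjoint B * adjoint A := adjoint_comp A B

theorem adj_one : adjoint (1 : E →L[ℂ] E) = 1 := by
  rw [← star_eq_adjoint, star_one]

/-! ### one Moebius map -/

theorem step (hCOM : S_COM) (hLEX : S_LEX) (hBLA : S_BLA) (hBLM : S_BLM) (hMOBC : S_MOBC)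
    (S : (E2 →L[ℂ] E2)ˣ) (P B : E →L[ℂ] E)
    (hP : ∀ (U : E2 →L[ℂ] E2) (W : (E →L[ℂ] E)ˣ) (C12 C2 : E →L[ℂ] E),
      adjoint U * U = 1 → U * adjoint U = 1 →
      (S : E2 →L[ℂ] E2) * blk (W : E →L[ℂ] E) C12 C2 = U * (S : E2 →L[ℂ] E2) →
      adjoint (W : E →L[ℂ] E) * P * (W : E →L[ℂ] E) = P ∧ C12 = B * C2 - (W : E →L[ℂ] E) * B)
    (φ : Mob) (U : E2 →L[ℂ] E2) (hU1 : adjoint U * U = 1) (hU2 : U * adjoint U = 1)
    (hU : φ.op ((S : E2 →L[ℂ] E2) * T * ((S⁻¹ : (E2 →L[ℂ] E2)ˣ) : E2 →L[ℂ] E2)) =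
        adjoint U * ((S : E2 →L[ℂ] E2) * T * ((S⁻¹ : (E2 →L[ℂ] E2)ˣ) : E2 →L[ℂ] E2)) * U) :
    ∃ W : (E →L[ℂ] E)ˣ, adjoint (W : E →L[ℂ] E) * P * (W : E →L[ℂ] E) = P ∧
      (W : E →L[ℂ] E) * φ.op Z = Z * (W : E →L[ℂ] E) ∧
      (W : E →L[ℂ] E) * ((φ.c * (1 - conj φ.a * φ.a)) • (Ring.inverse (1 - (conj φ.a) • Z) * X *
        Ring.inverse (1 - (conj φ.a) • Z)) + φ.op Z * B - B * φ.op Z) =
        (X + Z * B - B * Z) * (W : E →L[ℂ] E) := by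
  obtain ⟨hmul, hone, -, -, hinj, -, -⟩ := hBLA
  obtain ⟨-, hT, -, hM⟩ := hBLM
  rw [(hMOBC E2 T hT).2.2 φ S] at hU
  -- the intertwiner
  have hC := alg1 S U (adjoint U) T (φ.op T) hU2 hU
  obtain ⟨-, K, hL⟩ := hLEX
  obtain ⟨k, l, r, V0, d, γ, -, -, hLift, -⟩ := hL φ
  obtain ⟨hV1, hV2, -, -, -, hG⟩ := hLift
  set V : E →L[ℂ] E := R k * V0 * R l with hV
  have g1 : blk V (V * d) V * blk (adjoint V) (-(d * adjoint V)) (adjoint V) = 1 := by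
    rw [hmul, hV2, ← hone]
    congr 1
    rw [mul_neg, ← mul_assoc, neg_add_cancel]
  have g2 : blk (adjoint V) (-(d * adjoint V)) (adjoint V) * blk V (V * d) V = 1 := by
    rw [hmul, hV1, ← hone]
    congr 1
    rw [← mul_assoc, hV1, one_mul, neg_mul, mul_assoc, hV1, mul_one, add_neg_cancel]
  let G : (E2 →L[ℂ] E2)ˣ := ⟨blk V (V * d) V, blk (adjoint V) (-(d * adjoint V)) (adjoint V), g1, g2⟩
  let UU : (E2 →L[ℂ] E2)ˣ := ⟨U, adjoint U, hU2, hU1⟩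
  let D : (E2 →L[ℂ] E2)ˣ := S⁻¹ * UU * S * G⁻¹
  have hGG : (G : E2 →L[ℂ] E2) * φ.op T = T * (G : E2 →L[ℂ] E2) := hG
  have hGi : ((G⁻¹ : (E2 →L[ℂ] E2)ˣ) : E2 →L[ℂ] E2) * T =
      φ.op T * ((G⁻¹ : (E2 →L[ℂ] E2)ˣ) : E2 →L[ℂ] E2) := by
    have e : T = (G : E2 →L[ℂ] E2) * φ.op T * ((G⁻¹ : (E2 →L[ℂ] E2)ˣ) : E2 →L[ℂ] E2) := by
      rw [hGG, mul_assoc, Units.mul_inv, mul_one]
    calc ((G⁻¹ : (E2 →L[ℂ] E2)ˣ) : E2 →L[ℂ] E2) * T =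
          ((G⁻¹ : (E2 →L[ℂ] E2)ˣ) : E2 →L[ℂ] E2) * ((G : E2 →L[ℂ] E2) * φ.op T *
            ((G⁻¹ : (E2 →L[ℂ] E2)ˣ) : E2 →L[ℂ] E2)) := by rw [← e]
      _ = φ.op T * ((G⁻¹ : (E2 →L[ℂ] E2)ˣ) : E2 →L[ℂ] E2) := by
        rw [mul_assoc, Units.inv_mul_cancel_left]
  have hD : (D : E2 →L[ℂ] E2) * T = T * (D : E2 →L[ℂ] E2) := by
    have e : (D : E2 →L[ℂ] E2) = (((S⁻¹ : (E2 →L[ℂ] E2)ˣ) : E2 →L[ℂ] E2) * U * S) *
        ((G⁻¹ : (E2 →L[ℂ] E2)ˣ) : E2 →L[ℂ] E2) := by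
      simp only [D, Units.val_mul]
      rfl
    rw [e, mul_assoc, hGi, ← mul_assoc, hC, mul_assoc]
  obtain ⟨A, B0, hA⟩ := hCOM D hD
  let VV : (E →L[ℂ] E)ˣ := ⟨V, adjoint V, hV2, hV1⟩
  have hDG : (D : E2 →L[ℂ] E2) * (G : E2 →L[ℂ] E2) =
      ((S⁻¹ : (E2 →L[ℂ] E2)ˣ) : E2 →L[ℂ] E2) * U * S := by
    rw [← Units.val_mul]
    simp only [D, inv_mul_cancel_right, Units.val_mul]
    rfl
  set C12 : E →L[ℂ] E := (A : E →L[ℂ] E) * (V * d) + B0 * V with hC12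
  have hW : ((S⁻¹ : (E2 →L[ℂ] E2)ˣ) : E2 →L[ℂ] E2) * U * S =
      blk ((A * VV : (E →L[ℂ] E)ˣ) : E →L[ℂ] E) C12 ((A * VV : (E →L[ℂ] E)ˣ) : E →L[ℂ] E) := by
    rw [← hDG, hA]
    change blk (A : E →L[ℂ] E) B0 (A : E →L[ℂ] E) * blk V (V * d) V = _
    rw [hmul]
    rfl
  have hSW : (S : E2 →L[ℂ] E2) * blk ((A * VV : (E →L[ℂ] E)ˣ) : E →L[ℂ] E) C12
      ((A * VV : (E →L[ℂ] E)ˣ) : E →L[ℂ] E) = U * (S : E2 →L[ℂ] E2) := by
    rw [← hW]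
    simp only [mul_assoc, Units.mul_inv_cancel_left]
  obtain ⟨p1, p2⟩ := hP U (A * VV) C12 _ hU1 hU2 hSW
  rw [hW] at hC
  have hTT : T = blk Z X Z := rfl
  rw [hTT, hM φ X, hmul, hmul] at hC
  obtain ⟨c1, c2, -⟩ := hinj _ _ _ _ _ _ hC
  refine ⟨A * VV, p1, c1, ?_⟩
  generalize ((A * VV : (E →L[ℂ] E)ˣ) : E →L[ℂ] E) = W at *
  generalize φ.op Z = pZ at *
  generalize (φ.c * (1 - conj φ.a * φ.a)) • (Ring.inverse (1 - (conj φ.a) • Z) * X *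
        Ring.inverse (1 - (conj φ.a) • Z)) = pX at *
  rw [p2] at c2
  have e1 : W * pX = Z * (B * W - W * B) + X * W - (B * W - W * B) * pZ := by
    rw [← c2]
    abel
  have e2 : W * (pX + pZ * B - B * pZ) = W * pX + (W * pZ) * B - W * B * pZ := by
    rw [mul_sub, mul_add, mul_assoc, mul_assoc]
  have e3 : B * W * pZ = B * Z * W := by rw [mul_assoc, c1, mul_assoc]
  rw [e2, e1, c1, sub_mul (B * W), e3]
  simp only [mul_sub, sub_mul, add_mul, mul_assoc]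
  abel

theorem exp_one_pow (n : ℤ) (hn : n ≠ 0) : (Circle.exp 1) ^ n ≠ 1 := by
  intro h
  rw [← Circle.exp_zsmul] at h
  have h1 := congrArg (fun z : Circle => (z : ℂ)) h
  simp only [Circle.coe_exp, Circle.coe_one] at h1
  rw [Complex.exp_eq_one_iff] at h1
  obtain ⟨m, hm⟩ := h1
  have h2 : (n : ℝ) = m * (2 * Real.pi) := by
    have := congrArg Complex.im hm
    simpa using this
  have hm0 : (m : ℝ) ≠ 0 := by
    intro h0
    rw [h0, zero_mul] at h2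
    exact hn (by exact_mod_cast h2)
  apply irrational_pi
  refine ⟨(n : ℚ) / (2 * m), ?_⟩
  push_cast
  rw [h2]
  field_simp

theorem t_NH (hCOM : S_COM) (hORT : S_ORT) (hKN : S_KN) (hDIA : S_DIA) (hFIN : S_FIN)
    (hLEX : S_LEX) (hBLA : S_BLA) (hBLM : S_BLM) (hMOBC : S_MOBC) (hINV : S_INV) : S_NH := by
  intro S hS
  obtain ⟨P, B, m, hm, hPa, hPm, hP⟩ := hORT S
  -- the rotation
  let φ : Mob := ⟨((Circle.exp 1 : Circle) : ℂ), 0, Circle.norm_coe _, by simp⟩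
  obtain ⟨U, hU1, hU2, hU⟩ := hS φ
  obtain ⟨W, w1, w2, w3⟩ := step hCOM hLEX hBLA hBLM hMOBC S P B hP φ U hU1 hU2 hU
  have hφZ : φ.op Z = ((Circle.exp 1 : Circle) : ℂ) • Z := by
    simp [φ, Mob.op, mob]
  have w2' : ((Circle.exp 1 : Circle) : ℂ) • ((W : E →L[ℂ] E) * Z) = Z * (W : E →L[ℂ] E) := by
    rw [← w2, hφZ, mul_smul_comm]
  have w3' : ((Circle.exp 1 : Circle) : ℂ) • ((W : E →L[ℂ] E) * (X + Z * B - B * Z)) =
      (X + Z * B - B * Z) * (W : E →L[ℂ] E) := by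
    rw [← w3, hφZ, ← mul_smul_comm]
    congr 1
    have ha : φ.a = 0 := rfl
    have hc : φ.c = ((Circle.exp 1 : Circle) : ℂ) := rfl
    rw [ha, hc]
    simp only [map_zero, zero_smul, sub_zero, Ring.inverse_one, one_mul, mul_one, zero_mul,
      smul_sub, smul_add, smul_mul_assoc, mul_smul_comm]
  obtain ⟨F, l, hl, hFZ, hWF⟩ := hKN P m (Circle.exp 1) W hm hPa hPm exp_one_pow w1 w2'
  obtain ⟨ν, y, c, hc, hν, hN, hy, hy0⟩ := hDIA P m (Circle.exp 1) W F l (X + Z * B - B * Z) B hm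
    hPa hPm exp_one_pow w1 hl hFZ hWF rfl w3'
  -- the hyperbolic element
  let ψ : Mob := ⟨1, ((1 / 2 : ℝ) : ℂ), by simp, by
    rw [Complex.norm_real, Real.norm_of_nonneg (by norm_num)]
    norm_num⟩
  obtain ⟨U', hU1', hU2', hU'⟩ := hS ψ
  obtain ⟨W1, v1, v2, v3⟩ := step hCOM hLEX hBLA hBLM hMOBC S P B hP ψ U' hU1' hU2' hU'
  set r : ℝ := 1 / 2 with hr
  have hconj : conj ((r : ℝ) : ℂ) = (r : ℂ) := Complex.conj_ofReal r
  have hψZ : ψ.op Z = (Z - (r : ℂ) • (1 : E →L[ℂ] E)) * Ring.inverse (1 - (r : ℂ) • Z) := by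
    change mob 1 ((r : ℝ) : ℂ) Z = _
    rw [mob, one_smul, hconj]
  have hψa : ψ.a = (r : ℂ) := rfl
  have hψc : ψ.c = 1 := rfl
  rw [hψZ] at v2 v3
  rw [hψa, hψc, hconj, one_mul] at v3
  have hu : IsUnit (1 - (r : ℂ) • Z) := (hINV (r : ℂ) (by
    rw [Complex.norm_real, Real.norm_of_nonneg (by rw [hr]; norm_num), hr]
    norm_num)).1
  have i1 : (1 - (r : ℂ) • Z) * Ring.inverse (1 - (r : ℂ) • Z) = 1 := Ring.mul_inverse_cancel _ hu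
  have i2 : Ring.inverse (1 - (r : ℂ) • Z) * (1 - (r : ℂ) • Z) = 1 := Ring.inverse_mul_cancel _ hu
  have comm : ∀ A : E →L[ℂ] E, A * Z = Z * A →
      A * Ring.inverse (1 - (r : ℂ) • Z) = Ring.inverse (1 - (r : ℂ) • Z) * A := by
    intro A hA
    have h1 : A * (1 - (r : ℂ) • Z) = (1 - (r : ℂ) • Z) * A := by
      rw [mul_sub, sub_mul, mul_smul_comm, smul_mul_assoc, hA, mul_one, one_mul]
    calc A * Ring.inverse (1 - (r : ℂ) • Z) = Ring.inverse (1 - (r : ℂ) • Z) *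
          ((1 - (r : ℂ) • Z) * A) * Ring.inverse (1 - (r : ℂ) • Z) := by
          rw [← mul_assoc (Ring.inverse (1 - (r : ℂ) • Z)), i2, one_mul]
      _ = Ring.inverse (1 - (r : ℂ) • Z) * A := by
          rw [← h1, mul_assoc, mul_assoc, i1, mul_one]
  have hGZ := (comm Z rfl).symm
  rw [alg2 (r : ℂ) Z B X _ i1 i2 hGZ] at v3
  have hr2 : (1 : ℂ) - (r : ℂ) * (r : ℂ) = ((1 - r ^ 2 : ℝ) : ℂ) := by
    push_cast
    ring
  rw [hr2] at v3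
  obtain ⟨u1, u2⟩ := alg3 F W1 Z (X + Z * B - B * Z) (Ring.inverse (1 - (r : ℂ) • Z)) (r : ℂ)
    ((1 - r ^ 2 : ℝ) : ℂ) hFZ (comm _ hFZ) v2 v3
  have aF : adjoint ((F⁻¹ : (E →L[ℂ] E)ˣ) : E →L[ℂ] E) * adjoint (F : E →L[ℂ] E) = 1 := by
    rw [← adj_mul, F.mul_inv, adj_one]
  refine hFIN r ν y c (adjoint (F : E →L[ℂ] E) * P * (F : E →L[ℂ] E)) _ (F⁻¹ * W1 * F)
    (by rw [hr]; norm_num) (by rw [hr]; norm_num) hc hν ?_ hN hy hy0 ?_ u1 u2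
  · rw [adj_mul, adj_mul, adjoint_adjoint, hPa, mul_assoc]
  · have e1 : ((F⁻¹ * W1 * F : (E →L[ℂ] E)ˣ) : E →L[ℂ] E) =
        ((F⁻¹ : (E →L[ℂ] E)ˣ) : E →L[ℂ] E) * (W1 : E →L[ℂ] E) * (F : E →L[ℂ] E) := by
      rw [Units.val_mul, Units.val_mul]
    rw [e1, adj_mul, adj_mul]
    exact alg4 _ _ _ _ _ _ _ aF F.mul_inv v1

end Pool.Agent.W348.WH
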